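import Pool.Agent.helper64.OT.SpecF

/-!
# Project OT (MP_f6e9a2_nt): row OLD, both sets covered by few translates of thin sets of small doubling
-/

set_option autoImplicit false

namespace Pool.Agent.OT

open Finset
open scoped Pointwise

/-- phases: `∑ |F x| = |∑ α x * F x|` with `|α| ≤ 1` -/
theorem OLD_phase {ι : Type} (X : Finset ι) (F : ι → ℂ) : ∃ α : ι → ℂ, (∀ x, ‖α x‖ ≤ 1) ∧
    ∑ x ∈ X, ‖F x‖ = ‖∑ x ∈ X, α x * F x‖ := by
  classical
  refine ⟨fun x => if F x = 0 then 0 else (‖F x‖ : ℂ) / F x, fun x => ?_, ?_⟩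
  · show ‖(if F x = 0 then (0 : ℂ) else (‖F x‖ : ℂ) / F x)‖ ≤ 1
    split_ifs with h
    · simp
    · rw [norm_div, Complex.norm_real, norm_norm]
      exact div_self_le_one _
  · have h1 : ∀ x ∈ X, (if F x = 0 then (0 : ℂ) else (‖F x‖ : ℂ) / F x) * F x = ((‖F x‖ : ℝ) : ℂ) := by
      intro x _
      split_ifs with h
      · simp [h]
      · rw [div_mul_cancel₀ _ h]
    rw [Finset.sum_congr rfl h1, ← Complex.ofReal_sum, Complex.norm_real, Real.norm_of_nonneg]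
    exact Finset.sum_nonneg fun x _ => norm_nonneg _

theorem OLD : OLD_stmt := by
  intro K ε hε
  obtain ⟨δ, p₀, hδ, H⟩ := Pool.Agent.SPI.p_FIT K ε hε
  refine ⟨δ, p₀, hδ, ?_⟩
  intro p _ hp χ X Y Z W H₁ H₂ β hχ hβ hZ hH
  obtain ⟨hW, hH1, hH2, hc1, hc2, hX, hY⟩ := hH
  obtain ⟨α, hα, hs⟩ := OLD_phase X fun x => ∑ y ∈ Y, β y * χ (x - y)
  have hneg : -H₂ + -H₂ = -(H₂ + H₂) := (neg_add H₂ H₂).symm
  have h := H p hp H₁ (-H₂) Z (-W) X (-Y) hH1 (by rw [hneg, Finset.card_neg, Finset.card_neg]; exact hH2) hc1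
    (by rw [Finset.card_neg]; exact hc2) hZ (by rw [Finset.card_neg]; exact hW) hX
    (by rw [← neg_add]; exact Finset.neg_subset_neg hY) χ hχ α (fun b => β (-b)) hα (fun b => hβ _)
  rw [Finset.card_neg] at h
  rw [hs]
  have e : ∑ a ∈ X, ∑ b ∈ -Y, α a * β (-b) * χ (a + b) = ∑ x ∈ X, α x * ∑ y ∈ Y, β y * χ (x - y) := by
    refine Finset.sum_congr rfl fun x _ => ?_
    rw [Finset.sum_neg_index, Finset.mul_sum]
    refine Finset.sum_congr rfl fun y _ => ?_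
    rw [neg_neg, mul_assoc, sub_eq_add_neg]
  rw [e] at h
  exact h

end Pool.Agent.OT
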